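import Mathlib
import Pool.Agent.H90.NormF

namespace Pool.Agent.Results.MP_0c7e55_an.NoPair

open MeasureTheory Pool.Agent.H90.Norm

theorem result {Λ : Type*} [Countable Λ] [MeasurableSpace Λ] [DiscreteMeasurableSpace Λ]
    (μ : Measure (ℕ → Λ)) [IsProbabilityMeasure μ] (hT : MeasurePreserving shift μ μ)
    (hent : 0 < ksEntropy μ shift) (S : Set ℕ) (hS : S.Infinite) (hnd : ¬ Deterministic S) :
    ∃ x, Generic μ x ∧ ¬ SimplyNormal μ (along x S) :=
  main μ hT hent S hS hnd

end Pool.Agent.Results.MP_0c7e55_an.NoPair
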